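import Pool.Agent.N33.Tor.Cert
set_option autoImplicit false

/-! A commutative algebra of rank 47 over commutative rings of characteristic 3: a basis `e 0, …, e 46` with
`e i * e j` zero or plus or minus a basis element, satisfying `(xy)z + (yz)x + (zx)y = 0`. -/

namespace Pool.Agent.N33.Tor

def rows : List ℕ := [
  0x2f000002d550000000000000000026008d12100000000000000005cb1500009800000009911e00680,
  0x5e0002d800002b800000000000005200000008b01f000001b34000190000000005000c97005400d,
  0xba000000002c8001540000002a00a34270000000000000000000000000016ab5294f9d3600a80,
  0x17405b0000000016000000000530000000972a4000000000000003566c4000009d1a1006c00f,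
  0xb80005a0002c00ac00000000004d000004782f5e007400038000180000000004274b91,
  0x16c000b2000570154000000004f000004986fc03b00e40006e0002f0000000467cc93,
  0x2bd500000000000000000224280f8000000000000000004e94000,
  0x59b0000000000000000000095200438200000000000000a5400,
  0xbc000000000000000000001600000000000000260000023c600f4000000178000ac000,
  0x174000000000000000000002b800000000000004b00024808afc000000003000b4000,
  0x2d800000000ac00000000284e00000000001fbd00000006200026,
  0x5e00000000000000000000001580000000000a40268000022808201b806600000,
  0xba00000000000000000000002a8000000000146780000004686000386a00000,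
  0xb800000b4000000000000000004f9a024c70000000000192a,
  0x2e800000000017000000000000002a000000051000000090f9c80000002c,
  0x5e00000000002d80000000000000530000000a400000950003a000002e,
  0xba00000000000001680000000000a600000013a5800109d800001a00,
  0x17800000000000002c8000000000150000014004c011003c0001b00,
  0x2f00000000000000000000000000000000000000001fbd0000000,
  0x5e0000000000000000000000000000000000000021c10000000,
  0xba00000000000000000000000000000000000024c70000000,
  0x2c800000055000000000000009001f00,
  0x5a0000000ac0000000000009402000,
  0x5d000000000000000002d00015800000000009602280,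
  0xba0000000000000000000000000000027cd0000000,
  0xb6000000002b8000000000138042,
  0x170000000005800000000140044,
  0x5d00000000002e000000000b0000000144046,
  0xbc0000000000000000000b354000a602900,
  0x1780000000000016c000015c000015004c,
  0x2f00000000000000000002a800000000,
  0x5d0000000000000000000560000000,
  0xbc0000000000000002b800000000,
  0x174000000000000000580000000,
  0xb154000,
  0x5d00000000002c800000000,
  0xbc00000000005a0000000,
  0x166b80,
  0x2e800002d800000000,
  0x5e000005c0000000,
  0xb600055,
  0x2dda,
  0xba00000,
  0x174000,
  0x2f00,
  0x5e,
  0x0]

/-- the code of the product of `e i` and `e j`: `0` for `0`, `1 + 2 m` for `e m`, `2 + 2 m` for `- e m` -/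
def ent (i j : ℕ) : ℕ := rows.getD i 0 / 128 ^ j % 128

def tg (i j : ℕ) : ℕ := (ent i j - 1) / 2
def sg (i j : ℕ) : ℤ := if ent i j = 0 then 0 else if ent i j % 2 = 1 then 1 else -1

def chkT (i j l : ℕ) : Bool :=
  let A := sg i j * sg (tg i j) l
  let B := sg j l * sg (tg j l) i
  let C := sg l i * sg (tg l i) j
  decide ((A + B + C) % 3 = 0) && (
  (decide (A = 0) || (decide (B = 0) || decide (tg (tg i j) l = tg (tg j l) i))) && (
  (decide (B = 0) || (decide (C = 0) || decide (tg (tg j l) i = tg (tg l i) j))) &&
  (decide (A = 0) || (decide (C = 0) || decide (tg (tg i j) l = tg (tg l i) j)))))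

def chkC : Bool := (List.range 47).all fun i => (List.range 47).all fun j =>
  Nat.beq (ent i j) (ent j i) && Nat.ble (tg i j) 46

def chkJ : Bool := (List.range 47).all fun i => (List.range 47).all fun j => (List.range 47).all fun l =>
  chkT i j l

set_option maxRecDepth 100000
theorem chkC_true : chkC = true := by decide +kernel
theorem chkJ_true : chkJ = true := by decide +kernel

end Pool.Agent.N33.Tor
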