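import Pool.Agent.N33.Tor.Alg
set_option autoImplicit false

/-! The algebra of rank 47 is alternative over rings of characteristic 3. -/

namespace Pool.Agent.N33.Tor

section general
variable {ι : Type} [Fintype ι] {Φ : Type} [CommRing Φ] (g : ι → ι → ι → ℤ)

lemma assoc1 (x y z : ι → Φ) (k : ι) :
    ∑ m, ∑ l, (g m l k : Φ) * ((∑ i, ∑ j, (g i j m : Φ) * (x i * y j)) * z l) =
      ∑ l, ∑ i, ∑ j, ((∑ m, g i j m * g m l k : ℤ) : Φ) * (x i * y j * z l) := by
  rw [Finset.sum_comm]
  refine Finset.sum_congr rfl fun l _ => ?_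
  simp only [Finset.sum_mul, Finset.mul_sum]
  rw [Finset.sum_comm]
  refine Finset.sum_congr rfl fun i _ => ?_
  rw [Finset.sum_comm]
  refine Finset.sum_congr rfl fun j _ => ?_
  rw [Int.cast_sum, Finset.sum_mul]
  refine Finset.sum_congr rfl fun m _ => ?_
  push_cast
  ring

end general

/-- structure constants -/
def ga (i j k : Fin 47) : ℤ := if tg i j = k then sg i j else 0

lemma tg_lt (i j : Fin 47) : tg i j < 47 := by
  have h := chkC_true
  unfold chkC at h
  simp only [List.all_eq_true, List.mem_range, Bool.and_eq_true] at h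
  have := Nat.le_of_ble_eq_true (h i i.2 j j.2).2
  omega

lemma ent_comm (i j : Fin 47) : ent i j = ent j i := by
  have h := chkC_true
  unfold chkC at h
  simp only [List.all_eq_true, List.mem_range, Bool.and_eq_true] at h
  exact Nat.eq_of_beq_eq_true (h i i.2 j j.2).1

lemma ga_comm (i j k : Fin 47) : ga i j k = ga j i k := by
  unfold ga tg sg
  rw [ent_comm i j]

/-- coefficient of `e k` in `(e i * e j) * e l` -/
def c3 (i j l k : ℕ) : ℤ := if tg (tg i j) l = k then sg i j * sg (tg i j) l else 0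

lemma sum_ga (i j l k : Fin 47) : ∑ m, ga i j m * ga m l k = c3 i j l k := by
  have h := tg_lt i j
  rw [Finset.sum_eq_single (⟨tg i j, h⟩ : Fin 47)]
  · unfold ga c3
    simp only [if_true]
    split_ifs
    · rfl
    · simp
  · intro m _ hm
    have : ¬ tg i j = (m : ℕ) := fun h' => hm (Fin.ext h'.symm)
    unfold ga
    rw [if_neg this, zero_mul]
  · intro h'; exact absurd (Finset.mem_univ _) h'

lemma jac (i j l k : Fin 47) : (3 : ℤ) ∣ c3 i j l k + c3 j l i k + c3 l i j k := by
  have h := chkJ_true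
  unfold chkJ at h
  simp only [List.all_eq_true, List.mem_range] at h
  have h1 := h i i.2 j j.2 l l.2
  unfold chkT at h1
  simp only [Bool.and_eq_true, Bool.or_eq_true, decide_eq_true_eq] at h1
  obtain ⟨h2, h3, h4, h5⟩ := h1
  unfold c3
  generalize sg i j * sg (tg i j) l = a at *
  generalize sg j l * sg (tg j l) i = b at *
  generalize sg l i * sg (tg l i) j = c at *
  generalize tg (tg i j) l = p at *
  generalize tg (tg j l) i = q at *
  generalize tg (tg l i) j = r at *
  have h6 : (3 : ℤ) ∣ a + b + c := Int.dvd_of_emod_eq_zero h2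
  by_cases ha : a = 0 <;> by_cases hb : b = 0 <;> by_cases hc : c = 0 <;>
    simp only [ha, hb, hc, false_or, true_or] at h3 h4 h5 <;>
    split_ifs <;> omega

/-- the algebra of rank 47 -/
def B (K : Type) : Type := Fin 47 → K

section
variable {K : Type} [CommRing K]

instance : AddCommGroup (B K) := inferInstanceAs (AddCommGroup (Fin 47 → K))
instance {Φ : Type} [CommRing Φ] [Algebra Φ K] : Module Φ (B K) := inferInstanceAs (Module Φ (Fin 47 → K))

noncomputable instance : Mul (B K) := ⟨fun x y k => ∑ i, ∑ j, (ga i j k : K) * (x i * y j)⟩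

lemma mul_def (x y : B K) (k : Fin 47) : (x * y) k = ∑ i, ∑ j, (ga i j k : K) * (x i * y j) := rfl
lemma add_def (x y : B K) (k : Fin 47) : (x + y) k = x k + y k := rfl
lemma zero_def (k : Fin 47) : (0 : B K) k = 0 := rfl
lemma smul_def {Φ : Type} [CommRing Φ] [Algebra Φ K] (r : Φ) (x : B K) (k : Fin 47) : (r • x) k = r • x k := rfl

noncomputable instance : NonUnitalNonAssocRing (B K) where
  left_distrib := by
    intro x y z; funext k
    rw [mul_def, add_def, mul_def, mul_def, ← Finset.sum_add_distrib]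
    refine Finset.sum_congr rfl fun i _ => ?_
    rw [← Finset.sum_add_distrib]
    refine Finset.sum_congr rfl fun j _ => ?_
    rw [add_def]; ring
  right_distrib := by
    intro x y z; funext k
    rw [mul_def, add_def, mul_def, mul_def, ← Finset.sum_add_distrib]
    refine Finset.sum_congr rfl fun i _ => ?_
    rw [← Finset.sum_add_distrib]
    refine Finset.sum_congr rfl fun j _ => ?_
    rw [add_def]; ring
  zero_mul := by
    intro x; funext k
    rw [mul_def]
    simp [zero_def]
  mul_zero := by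
    intro x; funext k
    rw [mul_def]
    simp [zero_def]

instance {Φ : Type} [CommRing Φ] [Algebra Φ K] : IsScalarTower Φ (B K) (B K) := ⟨by
  intro r x y
  funext k
  rw [smul_eq_mul, smul_eq_mul, smul_def, mul_def, mul_def, Finset.smul_sum]
  refine Finset.sum_congr rfl fun i _ => ?_
  rw [Finset.smul_sum]
  refine Finset.sum_congr rfl fun j _ => ?_
  rw [smul_def, smul_mul_assoc, mul_smul_comm]⟩

instance {Φ : Type} [CommRing Φ] [Algebra Φ K] : SMulCommClass Φ (B K) (B K) := ⟨by
  intro r x y
  funext k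
  rw [smul_eq_mul, smul_eq_mul, smul_def, mul_def, mul_def, Finset.smul_sum]
  refine Finset.sum_congr rfl fun i _ => ?_
  rw [Finset.smul_sum]
  refine Finset.sum_congr rfl fun j _ => ?_
  rw [smul_def, mul_smul_comm, mul_smul_comm]⟩

lemma B_comm (x y : B K) : x * y = y * x := by
  funext k
  rw [mul_def, mul_def, Finset.sum_comm]
  refine Finset.sum_congr rfl fun i _ => Finset.sum_congr rfl fun j _ => ?_
  rw [ga_comm, mul_comm (x j)]

lemma mul_mul_def (x y z : B K) (k : Fin 47) :
    ((x * y) * z) k = ∑ l : Fin 47, ∑ i : Fin 47, ∑ j : Fin 47, ((c3 i j l k : ℤ) : K) * (x i * y j * z l) := by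
  have h2 := assoc1 (Φ := K) ga (x : Fin 47 → K) (y : Fin 47 → K) (z : Fin 47 → K) k
  refine Eq.trans h2 ?_
  refine Finset.sum_congr rfl fun l _ => Finset.sum_congr rfl fun i _ => Finset.sum_congr rfl fun j _ => ?_
  rw [sum_ga]

variable (h3 : (3 : K) = 0)
include h3

lemma jacobi (x y z : B K) : (x * y) * z + (y * z) * x + (z * x) * y = 0 := by
  funext k
  rw [add_def, add_def, mul_mul_def, mul_mul_def, mul_mul_def, zero_def]
  have e2 : ∑ l : Fin 47, ∑ i : Fin 47, ∑ j : Fin 47, ((c3 i j l k : ℤ) : K) * (y i * z j * x l) =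
      ∑ l : Fin 47, ∑ i : Fin 47, ∑ j : Fin 47, ((c3 j l i k : ℤ) : K) * (x i * y j * z l) := by
    rw [Finset.sum_comm]
    have : ∀ i : Fin 47, ∑ l : Fin 47, ∑ j : Fin 47, ((c3 i j l k : ℤ) : K) * (y i * z j * x l) =
        ∑ j : Fin 47, ∑ l : Fin 47, ((c3 i j l k : ℤ) : K) * (x l * y i * z j) := fun i => by
      rw [Finset.sum_comm]
      refine Finset.sum_congr rfl fun j _ => Finset.sum_congr rfl fun l _ => ?_
      ring
    simp only [this]
    rw [Finset.sum_comm]
    refine Finset.sum_congr rfl fun j _ => ?_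
    rw [Finset.sum_comm]
  have e3 : ∑ l : Fin 47, ∑ i : Fin 47, ∑ j : Fin 47, ((c3 i j l k : ℤ) : K) * (z i * x j * y l) =
      ∑ l : Fin 47, ∑ i : Fin 47, ∑ j : Fin 47, ((c3 l i j k : ℤ) : K) * (x i * y j * z l) := by
    rw [Finset.sum_comm]
    refine Finset.sum_congr rfl fun i _ => ?_
    rw [Finset.sum_comm]
    refine Finset.sum_congr rfl fun j _ => Finset.sum_congr rfl fun l _ => ?_
    ring
  rw [e2, e3, ← Finset.sum_add_distrib, ← Finset.sum_add_distrib]
  refine Finset.sum_eq_zero fun l _ => ?_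
  rw [← Finset.sum_add_distrib, ← Finset.sum_add_distrib]
  refine Finset.sum_eq_zero fun i _ => ?_
  rw [← Finset.sum_add_distrib, ← Finset.sum_add_distrib]
  refine Finset.sum_eq_zero fun j _ => ?_
  obtain ⟨q, hq⟩ := jac i j l k
  have h4 : ((c3 i j l k : ℤ) : K) + ((c3 j l i k : ℤ) : K) + ((c3 l i j k : ℤ) : K) = 0 := by
    have := congrArg (fun t : ℤ => (t : K)) hq
    simp only [Int.cast_add, Int.cast_mul, Int.cast_ofNat] at this
    rw [this, h3, zero_mul]
  linear_combination (x i * y j * z l) * h4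

lemma B_three (x : B K) : (3 : ℤ) • x = 0 := by
  funext k
  show (3 : ℤ) • x k = 0
  rw [zsmul_eq_mul]
  push_cast
  rw [h3, zero_mul]

/-- the algebra is alternative -/
theorem B_alt : Alt (B K) := by
  have key : ∀ x y : B K, (x * x) * y = x * (x * y) := by
    intro x y
    have h1 := jacobi h3 x x y
    rw [B_comm y x, B_comm (x * y) x] at h1
    have h2 := B_three h3 (x * (x * y))
    have h5 : (x * x) * y = (x * x * y + x * (x * y) + x * (x * y)) - (3 : ℤ) • (x * (x * y)) + x * (x * y) := by
      have : (3 : ℤ) • (x * (x * y)) = x * (x * y) + x * (x * y) + x * (x * y) := by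
        rw [show (3 : ℤ) = 1 + 1 + 1 by norm_num, add_smul, add_smul, one_smul]
      rw [this]; abel
    rw [h5, h1, h2]; abel
  intro x y
  refine ⟨key x y, ?_⟩
  rw [B_comm y (x * x), key x y, B_comm y x, B_comm (x * y) x]

end

end Pool.Agent.N33.Tor
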