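import Pool.Agent.N33.Tor.Poly
set_option autoImplicit false

/-! Multiplication operators of an alternative ring: the letter `2 i` is the right multiplication by `x i`, the letter
`2 i + 1` the left multiplication by `x i`. -/

namespace Pool.Agent.N33.Tor

/-- alternative rings -/
def Alt (A : Type) [NonUnitalNonAssocRing A] : Prop :=
  ∀ a b : A, (a * a) * b = a * (a * b) ∧ (b * a) * a = b * (a * a)

section
variable {A : Type} [NonUnitalNonAssocRing A]

/-- associator -/
def as (a b c : A) : A := (a * b) * c - a * (b * c)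

lemma Alt.l12 (h : Alt A) (a b c : A) : as a b c + as b a c = 0 := by
  have h1 := (h (a + b) c).1
  have h2 := (h a c).1
  have h3 := (h b c).1
  simp only [add_mul, mul_add] at h1
  unfold as
  rw [h2, h3] at h1
  have : a * b * c - a * (b * c) + (b * a * c - b * (a * c)) =
    (a * (a * c) + b * a * c + (a * b * c + b * (b * c))) -
    (a * (a * c) + b * (a * c) + (a * (b * c) + b * (b * c))) := by abel
  rw [this, h1]
  abel

lemma Alt.l23 (h : Alt A) (a b c : A) : as a b c + as a c b = 0 := by
  have h1 := (h (b + c) a).2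
  have h2 := (h b a).2
  have h3 := (h c a).2
  simp only [add_mul, mul_add] at h1
  unfold as
  rw [h2, h3] at h1
  have : a * b * c - a * (b * c) + (a * c * b - a * (c * b)) =
    (a * (b * b) + a * c * b + (a * b * c + a * (c * c))) -
    (a * (b * b) + a * (b * c) + (a * (c * b) + a * (c * c))) := by abel
  rw [this, h1]
  abel

/-- the operator of a letter -/
def op (x : ℕ → A) (k : ℕ) : A →+ A :=
  if k % 2 = 0 then AddMonoidHom.mulRight (x (k / 2)) else AddMonoidHom.mulLeft (x (k / 2))

lemma op_even (x : ℕ → A) (i : ℕ) (v : A) : op x (2 * i) v = v * x i := by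
  have h1 : (2 * i) % 2 = 0 := by omega
  have h2 : (2 * i) / 2 = i := by omega
  unfold op
  rw [if_pos h1, h2]; rfl

lemma op_odd (x : ℕ → A) (i : ℕ) (v : A) : op x (2 * i + 1) v = x i * v := by
  have h1 : ¬ (2 * i + 1) % 2 = 0 := by omega
  have h2 : (2 * i + 1) / 2 = i := by omega
  unfold op
  rw [if_neg h1, h2]; rfl
end

/-- nonassociative words -/
inductive W : Type
  | v (i : ℕ) : W
  | m (a b : W) : W

namespace W
variable {A : Type} [NonUnitalNonAssocRing A] (x : ℕ → A)

def val : W → A
  | v i => x i
  | m a b => val a * val b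

/-- the right and the left multiplication by a word, as polynomials in letters -/
def rl : W → P × P
  | v i => (P.cons (2 * i) 1 P.nil P.nil, P.cons (2 * i + 1) 1 P.nil P.nil)
  | m a b =>
    let ra := (rl a).1
    let la := (rl a).2
    let rb := (rl b).1
    let lb := (rl b).2
    (P.add 99 (P.add 99 (P.mul ra rb) (P.mul la rb)) (P.smul (-1) (P.mul rb la)),
     P.add 99 (P.add 99 (P.mul lb la) (P.mul lb ra)) (P.smul (-1) (P.mul ra lb)))

lemma rl_sound (h : Alt A) (w : W) : ∀ v : A,
    P.ev (op x) (rl w).1 v = v * val x w ∧ P.ev (op x) (rl w).2 v = val x w * v := by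
  induction w with
  | v i =>
    intro u
    constructor
    · simp [rl, val, op_even]
    · simp [rl, val, op_odd]
  | m a b iha ihb =>
    intro u
    constructor
    · simp only [rl, P.ev_add, P.ev_smul, P.ev_mul, (iha _).1, (iha _).2, (ihb _).1, val]
      have h1 := h.l12 u (val x a) (val x b)
      unfold as at h1
      have h2 : u * val x a * val x b + val x a * u * val x b + (-1 : ℤ) • (val x a * (u * val x b)) =
        u * (val x a * val x b) + (u * val x a * val x b - u * (val x a * val x b) +
          (val x a * u * val x b - val x a * (u * val x b))) := by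
        rw [neg_smul, one_smul]; abel
      rw [h2, h1, add_zero]
    · simp only [rl, P.ev_add, P.ev_smul, P.ev_mul, (iha _).1, (iha _).2, (ihb _).2, val]
      have h1 := h.l12 (val x a) (val x b) u
      have h2 := h.l23 (val x b) (val x a) u
      unfold as at h1 h2
      have h3 : val x a * (val x b * u) + val x b * u * val x a + (-1 : ℤ) • (val x b * (u * val x a)) =
        val x a * val x b * u -
          (val x a * val x b * u - val x a * (val x b * u) + (val x b * val x a * u - val x b * (val x a * u))) +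
          (val x b * val x a * u - val x b * (val x a * u) + (val x b * u * val x a - val x b * (u * val x a))) := by
        rw [neg_smul, one_smul]; abel
      rw [h3, h1, h2, sub_zero, add_zero]

end W

/-- relations: kind 0 is `[L_T,R_S] + [L_S,R_T]`; kinds 1, 2 are the right multiplications by `(T,S,U) + (S,T,U)` and
`(T,S,U) + (T,U,S)`; kinds 3, 4 are the left multiplications by these -/
structure Item : Type where
  c : ℤ
  kind : ℕ
  T : W
  S : W
  U : W
  pr : List ℕ
  sf : List ℕ

/-- `m (m T S) U - m T (m S U)`, right or left multiplication -/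
def asP (f : P × P → P) (T S U : W) : P :=
  P.add 99 (f (W.m (W.m T S) U).rl) (P.smul (-1) (f (W.m T (W.m S U)).rl))

def skP (T S : W) : P :=
  let rt := T.rl.1
  let lt := T.rl.2
  let rs := S.rl.1
  let ls := S.rl.2
  P.add 99 (P.add 99 (P.mul lt rs) (P.smul (-1) (P.mul rs lt)))
    (P.add 99 (P.mul ls rt) (P.smul (-1) (P.mul rt ls)))

def Item.rel (i : Item) : P :=
  match i.kind with
  | 0 => skP i.T i.S
  | 1 => P.add 99 (asP Prod.fst i.T i.S i.U) (asP Prod.fst i.S i.T i.U)
  | 2 => P.add 99 (asP Prod.fst i.T i.S i.U) (asP Prod.fst i.T i.U i.S)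
  | 3 => P.add 99 (asP Prod.snd i.T i.S i.U) (asP Prod.snd i.S i.T i.U)
  | 4 => P.add 99 (asP Prod.snd i.T i.S i.U) (asP Prod.snd i.T i.U i.S)
  | _ => P.nil

def Item.poly (i : Item) : P := P.smul i.c (P.pre i.pr (P.suf i.rel i.sf))

def total : List Item → P
  | [] => P.nil
  | i :: l => P.add 99 i.poly (total l)

section sound
variable {A : Type} [NonUnitalNonAssocRing A] (x : ℕ → A) (h : Alt A)
include h

lemma asR (T S U : W) (v : A) :
    P.ev (op x) (asP Prod.fst T S U) v = v * as (T.val x) (S.val x) (U.val x) := by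
  unfold asP
  rw [P.ev_add, P.ev_smul, (W.rl_sound x h _ v).1, (W.rl_sound x h _ v).1]
  simp only [W.val, as, neg_smul, one_smul, sub_eq_add_neg, mul_add, mul_neg]

lemma asL (T S U : W) (v : A) :
    P.ev (op x) (asP Prod.snd T S U) v = as (T.val x) (S.val x) (U.val x) * v := by
  unfold asP
  rw [P.ev_add, P.ev_smul, (W.rl_sound x h _ v).2, (W.rl_sound x h _ v).2]
  simp only [W.val, as, neg_smul, one_smul, sub_eq_add_neg, add_mul, neg_mul]

lemma skP_sound (T S : W) (v : A) : P.ev (op x) (skP T S) v = 0 := by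
  unfold skP
  simp only [P.ev_add, P.ev_smul, P.ev_mul, (W.rl_sound x h T _).1, (W.rl_sound x h T _).2,
    (W.rl_sound x h S _).1, (W.rl_sound x h S _).2]
  generalize T.val x = t
  generalize S.val x = s
  have h1 := h.l12 t v s
  have h2 := h.l23 v t s
  have h3 := h.l12 v s t
  unfold as at h1 h2 h3
  have h4 : t * v * s + (-1 : ℤ) • (t * (v * s)) + (s * v * t + (-1 : ℤ) • (s * (v * t))) =
    (t * v * s - t * (v * s) + (v * t * s - v * (t * s))) + (v * s * t - v * (s * t) + (s * v * t - s * (v * t)))
    - (v * t * s - v * (t * s) + (v * s * t - v * (s * t))) := by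
    rw [neg_smul, one_smul, neg_smul, one_smul]; abel
  rw [h4, h1, h2, h3]; simp

lemma rel_sound (i : Item) (v : A) : P.ev (op x) i.rel v = 0 := by
  unfold Item.rel
  split
  · exact skP_sound x h _ _ v
  · rw [P.ev_add, asR x h, asR x h, ← mul_add, h.l12, mul_zero]
  · rw [P.ev_add, asR x h, asR x h, ← mul_add, h.l23, mul_zero]
  · rw [P.ev_add, asL x h, asL x h, ← add_mul, h.l12, zero_mul]
  · rw [P.ev_add, asL x h, asL x h, ← add_mul, h.l23, zero_mul]
  · rfl

lemma poly_sound (i : Item) (v : A) : P.ev (op x) i.poly v = 0 := by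
  unfold Item.poly
  rw [P.ev_smul, P.ev_pre, P.ev_suf, rel_sound x h, P.evw_vzero, smul_zero]

lemma total_sound (l : List Item) (v : A) : P.ev (op x) (total l) v = 0 := by
  induction l with
  | nil => rfl
  | cons i l ih => simp only [total, P.ev_add, ih, poly_sound x h, add_zero]

end sound

/-- the affine map `k ↦ a k + b` modulo 5 -/
def aff (a b : ℕ) (k : ℕ) : ℕ := (a * k + b) % 5

/-- the induced map on letters -/
def laff (a b : ℕ) (k : ℕ) : ℕ := 2 * aff a b (k / 2) + k % 2

lemma op_laff {A : Type} [NonUnitalNonAssocRing A] (x : ℕ → A) (a b k : ℕ) :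
    op x (laff a b k) = op (fun i => x (aff a b i)) k := by
  unfold op laff
  have h1 : (2 * aff a b (k / 2) + k % 2) % 2 = k % 2 := by omega
  have h2 : (2 * aff a b (k / 2) + k % 2) / 2 = aff a b (k / 2) := by omega
  rw [h1, h2]

/-- the sum of the images of `p` under the affine maps, with sign given by the quadratic character of `a` -/
def symB (a : ℕ) (c : ℤ) (p : P) : List ℕ → P
  | [] => P.nil
  | b :: l => P.add 99 (P.smul c (P.ren (laff a b) p)) (symB a c p l)

def sym (p : P) : P :=
  P.add 99 (symB 1 1 p [0, 1, 2, 3, 4]) (P.add 99 (symB 2 (-1) p [0, 1, 2, 3, 4])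
    (P.add 99 (symB 3 (-1) p [0, 1, 2, 3, 4]) (symB 4 1 p [0, 1, 2, 3, 4])))

lemma symB_sound {A : Type} [NonUnitalNonAssocRing A] (x : ℕ → A) (p : P)
    (hp : ∀ (y : ℕ → A) (v : A), P.ev (op y) p v = 0) (a : ℕ) (c : ℤ) (l : List ℕ) (v : A) :
    P.ev (op x) (symB a c p l) v = 0 := by
  induction l with
  | nil => rfl
  | cons b l ih =>
    simp only [symB, P.ev_add, ih, P.ev_smul, P.ev_ren, op_laff, hp, smul_zero, add_zero]

lemma sym_sound {A : Type} [NonUnitalNonAssocRing A] (x : ℕ → A) (p : P)
    (hp : ∀ (y : ℕ → A) (v : A), P.ev (op y) p v = 0) (v : A) : P.ev (op x) (sym p) v = 0 := by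
  unfold sym
  simp only [P.ev_add, symB_sound x p hp, add_zero]

end Pool.Agent.N33.Tor
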