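import Pool.Agent.N33.Tor.Cert
set_option autoImplicit false

/-! The certificate. -/

namespace Pool.Agent.N33.Tor
open W

def items : List Item := [
  ⟨1, 0, (v 0), (v 1), (v 0), [5, 7, 9], []⟩,
  ⟨-1, 0, (v 0), (v 1), (v 0), [4], [8, 6]⟩,
  ⟨1, 0, (v 0), (v 1), (v 0), [5, 8], [6]⟩,
  ⟨1, 0, (v 0), (v 1), (v 0), [5, 8], [7]⟩,
  ⟨-1, 0, (v 0), (v 1), (v 0), [5, 9, 7], []⟩,
  ⟨1, 0, (v 0), (v 1), (v 0), [6], [5, 8]⟩,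
  ⟨1, 0, (v 0), (v 1), (v 0), [6, 5], [8]⟩,
  ⟨1, 0, (m (v 0) (v 1)), (v 2), (v 0), [], [8, 6]⟩,
  ⟨-1, 0, (m (v 0) (v 1)), (v 3), (v 0), [9], [5]⟩,
  ⟨-1, 0, (m (v 0) (v 1)), (v 4), (v 0), [6, 5], []⟩,
  ⟨1, 0, (m (m (v 0) (v 1)) (v 4)), (v 3), (v 0), [5], []⟩,
  ⟨1, 0, (m (v 0) (m (v 1) (v 2))), (v 4), (v 0), [6], []⟩,
  ⟨-1, 0, (m (v 0) (m (v 1) (v 3))), (v 4), (v 0), [], [4]⟩,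
  ⟨-1, 0, (m (v 0) (m (v 1) (v 4))), (v 2), (v 0), [], [6]⟩,
  ⟨1, 0, (m (v 0) (m (v 1) (v 4))), (v 3), (v 0), [4], []⟩,
  ⟨1, 0, (m (v 0) (v 1)), (m (v 2) (v 3)), (v 0), [9], []⟩,
  ⟨1, 0, (m (m (v 0) (v 1)) (m (v 2) (v 3))), (v 4), (v 0), [], []⟩,
  ⟨1, 0, (m (v 0) (m (m (v 1) (v 3)) (v 2))), (v 4), (v 0), [], []⟩,
  ⟨-1, 1, (v 0), (v 1), (v 2), [], [6, 8]⟩,
  ⟨-1, 3, (v 0), (v 1), (v 2), [], [6, 8]⟩,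
  ⟨1, 2, (v 0), (v 1), (v 2), [], [7, 9]⟩,
  ⟨1, 2, (v 0), (v 1), (v 2), [], [8, 6]⟩,
  ⟨-1, 2, (v 0), (v 1), (v 2), [8, 7], []⟩,
  ⟨-1, 4, (v 0), (v 1), (v 2), [], [6, 9]⟩,
  ⟨-1, 4, (v 0), (v 1), (v 2), [], [9, 6]⟩,
  ⟨-1, 2, (v 1), (v 0), (v 2), [], [6, 9]⟩,
  ⟨-1, 4, (v 1), (v 0), (v 2), [], [6, 8]⟩,
  ⟨1, 1, (v 0), (v 1), (m (v 2) (v 3)), [], [9]⟩,
  ⟨-1, 3, (v 0), (v 1), (m (v 2) (v 3)), [], [9]⟩,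
  ⟨1, 3, (v 0), (v 1), (m (v 2) (v 3)), [9], []⟩,
  ⟨1, 3, (v 0), (v 3), (m (v 1) (v 2)), [9], []⟩,
  ⟨-1, 4, (v 0), (m (v 1) (v 2)), (v 3), [], [9]⟩,
  ⟨-1, 4, (v 0), (m (v 1) (v 3)), (v 2), [9], []⟩,
  ⟨1, 4, (v 0), (m (v 3) (v 2)), (v 1), [], [8]⟩,
  ⟨1, 4, (v 0), (m (v 3) (v 2)), (v 1), [9], []⟩,
  ⟨1, 3, (m (v 0) (v 1)), (v 2), (v 3), [], [8]⟩,
  ⟨-1, 2, (m (v 0) (v 1)), (v 2), (v 3), [8], []⟩,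
  ⟨-1, 4, (m (v 0) (v 1)), (v 2), (v 3), [], [8]⟩,
  ⟨1, 4, (m (v 1) (v 0)), (v 2), (v 3), [], [8]⟩,
  ⟨1, 1, (m (v 0) (v 1)), (v 3), (v 2), [9], []⟩,
  ⟨1, 1, (m (v 1) (v 0)), (v 3), (v 2), [], [8]⟩,
  ⟨1, 1, (m (v 0) (v 3)), (v 1), (v 2), [9], []⟩,
  ⟨1, 3, (m (v 0) (v 3)), (v 1), (v 2), [9], []⟩,
  ⟨-1, 4, (m (v 0) (v 3)), (v 1), (v 2), [], [9]⟩,
  ⟨-1, 3, (m (v 3) (v 0)), (v 1), (v 2), [], [9]⟩,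
  ⟨1, 3, (v 0), (v 1), (m (v 2) (m (v 4) (v 3))), [], []⟩,
  ⟨-1, 2, (v 0), (m (v 1) (v 2)), (m (v 4) (v 3)), [], []⟩,
  ⟨-1, 4, (v 0), (m (v 1) (v 4)), (m (v 2) (v 3)), [], []⟩,
  ⟨-1, 2, (v 0), (m (m (v 3) (v 1)) (v 2)), (v 4), [], []⟩,
  ⟨1, 2, (v 0), (m (m (v 2) (v 3)) (v 1)), (v 4), [], []⟩,
  ⟨1, 4, (v 0), (m (m (v 3) (v 2)) (v 1)), (v 4), [], []⟩,
  ⟨-1, 3, (m (v 0) (v 1)), (v 2), (m (v 3) (v 4)), [], []⟩,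
  ⟨1, 1, (m (v 1) (v 0)), (v 2), (m (v 4) (v 3)), [], []⟩,
  ⟨-1, 1, (m (v 0) (v 1)), (m (v 2) (v 3)), (v 4), [], []⟩,
  ⟨-1, 1, (m (v 1) (v 0)), (m (v 2) (v 3)), (v 4), [], []⟩,
  ⟨-1, 2, (m (v 1) (m (v 0) (v 2))), (v 3), (v 4), [], []⟩,
  ⟨-1, 1, (m (v 2) (m (v 0) (v 1))), (v 3), (v 4), [], []⟩]

/-- three times the torsion element -/
def S3 : P := sym (total items)

/-- the torsion element, as a polynomial in multiplication operators -/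
def E : P := P.div3 S3

set_option maxRecDepth 100000
theorem chk3_S3 : P.chk3 S3 = true := by decide +kernel

theorem torsion {A : Type} [NonUnitalNonAssocRing A] (h : Alt A) (x : ℕ → A) (v : A) :
    (3 : ℤ) • P.ev (op x) E v = 0 := by
  unfold E
  rw [P.ev_div3 _ _ chk3_S3]
  exact sym_sound x _ (fun y w => total_sound y h _ w) v

end Pool.Agent.N33.Tor
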