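import Pool.Agent.N33.Tor.Data
import Pool.Agent.N33.Tor.Alg2
set_option autoImplicit false

/-! The value of the torsion element in the algebra of rank 47. -/

namespace Pool.Agent.N33.Tor

/-- the sign and the index of `e i * e j` for `j = x / 2 % 6` -/
def sgx (i x : ℕ) : ℤ := sg i (x / 2 % 6)
def tgx (i x : ℕ) : ℕ := tg i (x / 2 % 6)

/-- the coefficient of `e 46` in the value of a polynomial at `e i` -/
def top : P → ℕ → ℤ
  | P.nil, _ => 0
  | P.cons x c s r, i =>
    (if sgx i x = 0 then 0 else sgx i x * ((if tgx i x = 46 then c else 0) + top s (tgx i x))) + top r i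

section
variable {K : Type} [CommRing K]

/-- basis vectors (and zero if the index is at least 47) -/
def bv (K : Type) [CommRing K] (i : ℕ) : B K := fun k => if (k : ℕ) = i then 1 else 0

lemma bv_ge (i : ℕ) (h : ¬ i < 47) : bv K i = 0 := by
  funext k
  have : ¬ (k : ℕ) = i := fun h' => h (h' ▸ k.2)
  show (if (k : ℕ) = i then (1 : K) else 0) = 0
  rw [if_neg this]

lemma zsmul_def (r : ℤ) (x : B K) (k : Fin 47) : (r • x) k = (r : K) * x k := by
  show r • x k = _
  rw [zsmul_eq_mul]

lemma bv_mul (i j : ℕ) (hi : i < 47) (hj : j < 47) : bv K i * bv K j = sg i j • bv K (tg i j) := by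
  funext k
  rw [mul_def, Finset.sum_eq_single (⟨i, hi⟩ : Fin 47), Finset.sum_eq_single (⟨j, hj⟩ : Fin 47), zsmul_def]
  · have h1 : bv K i ⟨i, hi⟩ = 1 := if_pos rfl
    have h2 : bv K j ⟨j, hj⟩ = 1 := if_pos rfl
    have h3 : bv K (tg i j) k = if (k : ℕ) = tg i j then 1 else 0 := rfl
    rw [h1, h2, h3]
    unfold ga
    by_cases h : tg i j = (k : ℕ)
    · rw [if_pos h, if_pos h.symm]; simp
    · rw [if_neg h, if_neg (fun h' => h h'.symm)]; simp
  · intro m _ hm
    have h2 : bv K j m = 0 := if_neg (fun h' => hm (Fin.ext h'))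
    rw [h2, mul_zero, mul_zero]
  · intro h; exact absurd (Finset.mem_univ _) h
  · intro m _ hm
    have h2 : bv K i m = 0 := if_neg (fun h' => hm (Fin.ext h'))
    refine Finset.sum_eq_zero fun j _ => ?_
    rw [h2, zero_mul, mul_zero]
  · intro h; exact absurd (Finset.mem_univ _) h

/-- the values of the variables -/
def bs (K : Type) [CommRing K] (k : ℕ) : B K := bv K (k % 6)

lemma op_bv (i x : ℕ) (hi : i < 47) : op (bs K) x (bv K i) = sgx i x • bv K (tgx i x) := by
  have hx : x / 2 % 6 < 47 := by omega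
  unfold op sgx tgx
  split_ifs with h
  · show bv K i * bv K (x / 2 % 6) = _
    exact bv_mul i _ hi hx
  · show bv K (x / 2 % 6) * bv K i = _
    rw [B_comm]
    exact bv_mul i _ hi hx

lemma top_sound (p : P) (i : ℕ) (hi : i < 47) :
    P.ev (op (bs K)) p (bv K i) (⟨46, by norm_num⟩ : Fin 47) = (top p i : K) := by
  induction p generalizing i with
  | nil => simp only [P.ev_nil, top, Int.cast_zero]; rfl
  | cons x c s r ihs ihr =>
    rw [P.ev_cons, add_def, add_def, ihr i hi, op_bv i x hi, P.ev_vsmul, zsmul_def, zsmul_def, zsmul_def]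
    have e : top (P.cons x c s r) i = (if sgx i x = 0 then 0 else
      sgx i x * ((if tgx i x = 46 then c else 0) + top s (tgx i x))) + top r i := rfl
    have hx : x / 2 % 6 < 47 := by omega
    have ht : tgx i x < 47 := tg_lt ⟨i, hi⟩ ⟨x / 2 % 6, hx⟩
    rw [e, ihs _ ht]
    have h3 : bv K (tgx i x) (⟨46, by norm_num⟩ : Fin 47) = if tgx i x = 46 then 1 else 0 := by
      unfold bv
      by_cases h4 : tgx i x = 46
      · rw [if_pos h4, if_pos h4.symm]
      · rw [if_neg h4, if_neg (fun h' => h4 h'.symm)]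
    rw [h3]
    by_cases h : sgx i x = 0
    · rw [if_pos h, h]; simp
    · rw [if_neg h]
      by_cases h4 : tgx i x = 46
      · rw [if_pos h4, if_pos h4]; push_cast; ring
      · rw [if_neg h4, if_neg h4]; push_cast; ring
end

set_option maxRecDepth 100000
theorem top_E : top E 5 % 3 = 1 := by decide +kernel

lemma aux3 (n : ℤ) (h : n % 3 = 1) : ∃ q, n = 1 + 3 * q := ⟨n / 3, by omega⟩

theorem top_E3 : ∃ q, top E 5 = 1 + 3 * q := aux3 _ top_E

theorem eval_E {K : Type} [CommRing K] (h3 : (3 : K) = 0) :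
    P.ev (op (bs K)) E (bs K 5) (⟨46, by norm_num⟩ : Fin 47) = 1 := by
  obtain ⟨q, hq⟩ := top_E3
  have h1 := top_sound (K := K) E 5 (by norm_num)
  refine Eq.trans h1 ?_
  rw [hq]
  push_cast
  rw [h3]; ring

end Pool.Agent.N33.Tor
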