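import Pool.Agent.N33.Tor.Eval
import Pool.Agent.Helper928.Nuc.Free
set_option autoImplicit false

/-! Torsion in the free alternative algebra. -/

namespace Pool.Agent.N33.Tor
open Pool.Agent.Helper928.Nuc.Free

section
variable (Φ : Type) [CommRing Φ] {X : Type} (g : Fin 6 ↪ X)

/-- the generators, periodically -/
noncomputable def xs (k : ℕ) : FreeAlt Φ X := FreeAlt.gen (g ⟨k % 6, Nat.mod_lt _ (by norm_num)⟩)

/-- the torsion element -/
noncomputable def tor : FreeAlt Φ X := P.ev (op (xs Φ g)) E (xs Φ g 5)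

lemma alt_free : Alt (FreeAlt Φ X) := fun a b => FreeAlt.alternative a b

lemma three_tor : (3 : Φ) • tor Φ g = 0 := by
  have h := torsion (alt_free Φ) (xs Φ g) (xs Φ g 5)
  have e : (3 : Φ) • tor Φ g = (3 : ℤ) • tor Φ g := by
    rw [← Int.cast_smul_eq_zsmul Φ]
    norm_num
  rw [e]
  exact h

variable (K : Type) [CommRing K] [Algebra Φ K] (h3 : (3 : K) = 0)

open Classical in
/-- the values of the generators in the algebra of rank 47 -/
noncomputable def vals (t : X) : B K := if h : ∃ i, g i = t then bv K (h.choose : ℕ) else 0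

lemma vals_g (i : Fin 6) : vals g K (g i) = bv K i := by
  have h : ∃ j, g j = g i := ⟨i, rfl⟩
  unfold vals
  rw [dif_pos h, g.injective h.choose_spec]

/-- the homomorphism to the algebra of rank 47 -/
noncomputable def hom : FreeAlt Φ X →ₙₐ[Φ] B K := FreeAlt.lift (fun a b => B_alt h3 a b) (vals g K)

lemma hom_xs (k : ℕ) : hom Φ g K h3 (xs Φ g k) = bs K k := by
  unfold hom xs
  exact (FreeAlt.lift_gen _ _ _).trans (vals_g g K _)

lemma hom_ev (p : P) (v : FreeAlt Φ X) :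
    hom Φ g K h3 (P.ev (op (xs Φ g)) p v) = P.ev (op (bs K)) p (hom Φ g K h3 v) := by
  have h2 := P.ev_hom (op (xs Φ g)) (op (bs K)) ((hom Φ g K h3 : FreeAlt Φ X →ₙₐ[Φ] B K) : FreeAlt Φ X →+ B K) (by
    intro k v
    show hom Φ g K h3 (op (xs Φ g) k v) = op (bs K) k (hom Φ g K h3 v)
    unfold op
    split_ifs
    · show hom Φ g K h3 (v * xs Φ g (k / 2)) = hom Φ g K h3 v * bs K (k / 2)
      rw [map_mul, hom_xs]
    · show hom Φ g K h3 (xs Φ g (k / 2) * v) = bs K (k / 2) * hom Φ g K h3 v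
      rw [map_mul, hom_xs]) p v
  exact h2

lemma hom_tor : hom Φ g K h3 (tor Φ g) (⟨46, by norm_num⟩ : Fin 47) = (1 : K) := by
  unfold tor
  rw [hom_ev, hom_xs]
  exact eval_E h3

end

lemma three_quot (Φ : Type) [CommRing Φ] : (3 : Φ ⧸ Ideal.span {(3 : Φ)}) = 0 := by
  have : (Ideal.Quotient.mk (Ideal.span {(3 : Φ)}) (3 : Φ)) = 0 :=
    Ideal.Quotient.eq_zero_iff_mem.mpr (Ideal.mem_span_singleton_self _)
  rwa [map_ofNat] at this

theorem tor_ne (Φ : Type) [CommRing Φ] {X : Type} (g : Fin 6 ↪ X) (h : ¬ IsUnit (3 : Φ)) : tor Φ g ≠ 0 := by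
  intro h0
  have h1 := hom_tor Φ g (Φ ⧸ Ideal.span {(3 : Φ)}) (three_quot Φ)
  rw [h0, map_zero] at h1
  have h2 : (Ideal.Quotient.mk (Ideal.span {(3 : Φ)}) (1 : Φ)) = 0 := by
    rw [map_one]; exact h1.symm
  rw [Ideal.Quotient.eq_zero_iff_mem, ← Ideal.eq_top_iff_one, Ideal.span_singleton_eq_top] at h2
  exact h h2

theorem flat_of (Φ : Type) [CommRing Φ] {X : Type} (g : Fin 6 ↪ X) (h : Module.Flat Φ (FreeAlt Φ X)) :
    ∃ b : Φ, 9 * b = 3 := by
  have h0 : ∑ i : Fin 1, (fun _ : Fin 1 => (3 : Φ)) i • (fun _ : Fin 1 => tor Φ g) i = 0 := by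
    simp [three_tor]
  obtain ⟨k, a, y, h1, h2⟩ := Module.Flat.isTrivialRelation_of_sum_smul_eq_zero h0
  have h3 := three_quot Φ
  have h4 := hom_tor Φ g (Φ ⧸ Ideal.span {(3 : Φ)}) h3
  have h5 : tor Φ g = ∑ j, a 0 j • y j := h1 0
  rw [h5, map_sum] at h4
  have h6 : ∀ j, ∃ c : Φ, Ideal.Quotient.mk (Ideal.span {(3 : Φ)}) c =
      hom Φ g (Φ ⧸ Ideal.span {(3 : Φ)}) h3 (y j) (⟨46, by norm_num⟩ : Fin 47) := fun j =>
    Ideal.Quotient.mk_surjective _
  choose c hc using h6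
  have h7 : ∀ (s : Finset (Fin k)), (∑ j ∈ s, hom Φ g (Φ ⧸ Ideal.span {(3 : Φ)}) h3 (a 0 j • y j)) (⟨46, by norm_num⟩ : Fin 47) =
      Ideal.Quotient.mk (Ideal.span {(3 : Φ)}) (∑ j ∈ s, a 0 j * c j) := by
    intro s
    induction s using Finset.induction_on with
    | empty => simp; rfl
    | insert j s hj ih =>
      rw [Finset.sum_insert hj, Finset.sum_insert hj, add_def, ih, map_add, map_smul, smul_def, map_mul, hc j]
      rfl
  rw [h7] at h4
  have h8 : Ideal.Quotient.mk (Ideal.span {(3 : Φ)}) ((∑ j, a 0 j * c j) - 1) = 0 := by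
    rw [map_sub, h4, map_one, sub_self]
  rw [Ideal.Quotient.eq_zero_iff_mem, Ideal.mem_span_singleton] at h8
  obtain ⟨d, hd⟩ := h8
  have h9 : 3 * ∑ j, a 0 j * c j = 0 := by
    rw [Finset.mul_sum]
    refine Finset.sum_eq_zero fun j _ => ?_
    have := h2 j
    simp only [Finset.univ_unique, Finset.sum_singleton] at this
    have h10 : (3 : Φ) * a 0 j = 0 := this
    rw [← mul_assoc, h10, zero_mul]
  refine ⟨-d, ?_⟩
  linear_combination 3 * hd - h9

theorem main (Φ : Type) [CommRing Φ] (X : Type) (g : Fin 6 ↪ X) :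
    (¬ IsUnit (3 : Φ) → ∃ f : FreeAlt Φ X, f ≠ 0 ∧ (3 : Φ) • f = 0) ∧
      (Module.Flat Φ (FreeAlt Φ X) → ∃ b : Φ, 9 * b = 3) :=
  ⟨fun h => ⟨tor Φ g, tor_ne Φ g h, three_tor Φ g⟩, fun h => flat_of Φ g h⟩

end Pool.Agent.N33.Tor
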