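import Mathlib
set_option autoImplicit false

/-! Polynomials without constant term in non-commuting letters (letters are natural numbers), stored as
tries: `cons x c s r` is `c·x + x·s + r`.  They act on an additive group once an additive operator is chosen for
every letter; a word acts from left to right. -/

namespace Pool.Agent.N33.Tor

inductive P : Type
  | nil : P
  | cons (x : ℕ) (c : ℤ) (s r : P) : P

namespace P

def smul (k : ℤ) : P → P
  | nil => nil
  | cons x c s r => cons x (k * c) (smul k s) (smul k r)

def app : P → P → P
  | nil, q => q
  | cons x c s r, q => cons x c s (app r q)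

/-- addition (merging of tries sorted by letters); the first argument is a recursion bound -/
def add : ℕ → P → P → P
  | 0, p, q => app p q
  | _ + 1, nil, q => q
  | _ + 1, cons x c s r, nil => cons x c s r
  | n + 1, cons x c s r, cons y d t u =>
      cond (Nat.beq x y) (cons x (c + d) (add n s t) (add n r u))
        (cond (Nat.ble x y) (cons x c s (add n r (cons y d t u))) (cons y d t (add n (cons x c s r) u)))

/-- `c • q + s` -/
def addm (c : ℤ) (q s : P) : P := if c = 0 then s else add 99 (smul c q) s

def mul : P → P → P
  | nil, _ => nil
  | cons x c s r, q => cons x 0 (addm c q (mul s q)) (mul r q)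

/-- left multiplication by a word -/
def pre : List ℕ → P → P
  | [], p => p
  | x :: l, p => cons x 0 (pre l p) nil

/-- a nonempty word -/
def word (x : ℕ) : List ℕ → P
  | [] => cons x 1 nil nil
  | y :: l => cons x 0 (word y l) nil

/-- right multiplication by a word -/
def suf (p : P) : List ℕ → P
  | [] => p
  | x :: l => mul p (word x l)

/-- renaming of the letters -/
def ren (g : ℕ → ℕ) : P → P
  | nil => nil
  | cons x c s r => add 99 (cons (g x) c (ren g s) nil) (ren g r)

def div3 : P → P
  | nil => nil
  | cons x c s r => cons x (c / 3) (div3 s) (div3 r)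

/-- all coefficients are divisible by 3 -/
def chk3 : P → Bool
  | nil => true
  | cons _ c s r => decide (c % 3 = 0) && (chk3 s && chk3 r)

section ev
variable {M : Type} [AddCommGroup M] (op : ℕ → M →+ M)

/-- the action of a polynomial -/
def ev : P → M → M
  | nil, _ => 0
  | cons x c s r, v => c • op x v + ev s (op x v) + ev r v

@[simp] lemma ev_nil (v : M) : ev op nil v = 0 := rfl
@[simp] lemma ev_cons (x : ℕ) (c : ℤ) (s r : P) (v : M) :
    ev op (cons x c s r) v = c • op x v + ev op s (op x v) + ev op r v := rfl

lemma ev_vadd (p : P) (v w : M) : ev op p (v + w) = ev op p v + ev op p w := by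
  induction p generalizing v w with
  | nil => simp
  | cons x c s r ihs ihr => simp only [ev_cons, map_add, ihs, ihr, smul_add]; abel

lemma ev_vzero (p : P) : ev op p 0 = 0 := by
  induction p with
  | nil => rfl
  | cons x c s r ihs ihr => simp only [ev_cons, map_zero, ihs, ihr, smul_zero, add_zero]

lemma ev_vneg (p : P) (v : M) : ev op p (-v) = - ev op p v := by
  have h := ev_vadd op p v (-v)
  rw [add_neg_cancel, ev_vzero] at h
  exact (neg_eq_of_add_eq_zero_right h.symm).symm

lemma ev_vsmul (p : P) (k : ℤ) (v : M) : ev op p (k • v) = k • ev op p v := by
  induction p generalizing v with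
  | nil => simp
  | cons x c s r ihs ihr => simp only [ev_cons, map_zsmul, ihs, ihr, smul_add, smul_comm c k]

lemma ev_smul (k : ℤ) (p : P) (v : M) : ev op (smul k p) v = k • ev op p v := by
  induction p generalizing v with
  | nil => simp [smul]
  | cons x c s r ihs ihr => simp only [smul, ev_cons, ihs, ihr, smul_add, mul_smul]

lemma ev_app (p q : P) (v : M) : ev op (app p q) v = ev op p v + ev op q v := by
  induction p generalizing v with
  | nil => simp [app]
  | cons x c s r ihs ihr => simp only [app, ev_cons, ihr]; abel

lemma ev_add (n : ℕ) (p q : P) (v : M) : ev op (add n p q) v = ev op p v + ev op q v := by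
  induction n generalizing p q v with
  | zero => simp only [add]; exact ev_app op p q v
  | succ n ih =>
    cases p with
    | nil => simp [add]
    | cons x c s r =>
      cases q with
      | nil => simp [add]
      | cons y d t u =>
        simp only [add]
        cases h : Nat.beq x y with
        | true =>
          have hxy : x = y := Nat.eq_of_beq_eq_true h
          subst hxy
          simp only [cond_true, ev_cons, ih, add_smul]; abel
        | false =>
          simp only [cond_false]
          cases Nat.ble x y with
          | true => simp only [cond_true, ev_cons, ih]; abel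
          | false => simp only [cond_false, ev_cons, ih]; abel

lemma ev_addm (c : ℤ) (q s : P) (v : M) : ev op (addm c q s) v = c • ev op q v + ev op s v := by
  unfold addm
  split_ifs with h
  · rw [h, zero_smul, zero_add]
  · rw [ev_add, ev_smul]

lemma ev_mul (p q : P) (v : M) : ev op (mul p q) v = ev op q (ev op p v) := by
  induction p generalizing v with
  | nil => simp [mul, ev_vzero]
  | cons x c s r ihs ihr =>
    simp only [mul, ev_cons, ev_addm, ihs, ihr, ev_vadd, ev_vsmul, zero_smul, zero_add]

/-- the action of a word -/
def evw : List ℕ → M → M
  | [], v => v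
  | x :: l, v => evw l (op x v)

lemma evw_vzero (l : List ℕ) : evw op l 0 = 0 := by
  induction l with
  | nil => rfl
  | cons x l ih => simp only [evw, map_zero, ih]

lemma ev_pre (l : List ℕ) (p : P) (v : M) : ev op (pre l p) v = ev op p (evw op l v) := by
  induction l generalizing v with
  | nil => rfl
  | cons x l ih => simp only [pre, ev_cons, ih, evw, zero_smul, zero_add, ev_nil, add_zero]

lemma ev_word (x : ℕ) (l : List ℕ) (v : M) : ev op (word x l) v = evw op (x :: l) v := by
  induction l generalizing x v with
  | nil => simp [word, evw]
  | cons y l ih =>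
    simp only [word, ev_cons, ih, evw, zero_smul, zero_add, ev_nil, add_zero]

lemma ev_suf (l : List ℕ) (p : P) (v : M) : ev op (suf p l) v = evw op l (ev op p v) := by
  cases l with
  | nil => rfl
  | cons x l => simp only [suf, ev_mul, ev_word]

lemma ev_ren (g : ℕ → ℕ) (p : P) (v : M) : ev op (ren g p) v = ev (fun k => op (g k)) p v := by
  induction p generalizing v with
  | nil => rfl
  | cons x c s r ihs ihr => simp only [ren, ev_add, ev_cons, ihs, ihr, ev_nil, add_zero]

lemma ev_div3 (p : P) (h : chk3 p = true) (v : M) : (3 : ℤ) • ev op (div3 p) v = ev op p v := by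
  induction p generalizing v with
  | nil => simp [div3]
  | cons x c s r ihs ihr =>
    simp only [chk3, Bool.and_eq_true, decide_eq_true_eq] at h
    have hc : (3 : ℤ) * (c / 3) = c := by omega
    simp only [div3, ev_cons, smul_add, ihs h.2.1, ihr h.2.2, ← mul_smul, hc]

/-- naturality -/
lemma ev_hom {N : Type} [AddCommGroup N] (op' : ℕ → N →+ N) (f : M →+ N) (h : ∀ k v, f (op k v) = op' k (f v))
    (p : P) (v : M) : f (ev op p v) = ev op' p (f v) := by
  induction p generalizing v with
  | nil => simp
  | cons x c s r ihs ihr => simp only [ev_cons, map_add, map_zsmul, ihs, ihr, h]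

end ev
end P
end Pool.Agent.N33.Tor
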