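import Pool.Agent.N33.Tor.Final
set_option autoImplicit false

/-!
The free alternative ring has 3-torsion.

Proof outline. Certain integral combination `S` of consequences of the alternative laws (57 relations between
multiplication operators, symmetrised by the affine group of order 20 of `ZMod 5`), multilinear in six variables, has all
coefficients divisible by 3 as a polynomial in words of multiplication operators; the kernel checks this. So
`E = S / 3` takes values annihilated by 3 in all alternative rings. On the other hand `E` takes the value `e 46 ≠ 0` in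
an explicit commutative alternative algebra of rank 47 over any nonzero ring of characteristic 3.
-/

namespace Pool.Agent.N33.Tor.TorsionResult
open Pool.Agent.Helper928.Nuc.Free Pool.Agent.N33.Tor

theorem result :
    ((∃ f : FreeAlt ℤ ℕ, f ≠ 0 ∧ (3 : ℤ) • f = 0) ∧ ¬ Module.Free ℤ (FreeAlt ℤ ℕ)) ∧
    ∀ (Φ : Type) [CommRing Φ] (X : Type) (_ : Fin 6 ↪ X),
      (¬ IsUnit (3 : Φ) → ∃ f : FreeAlt Φ X, f ≠ 0 ∧ (3 : Φ) • f = 0) ∧
      (Module.Flat Φ (FreeAlt Φ X) → ∃ b : Φ, 9 * b = 3) := by
  refine ⟨⟨?_, ?_⟩, fun Φ _ X g => main Φ X g⟩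
  · obtain ⟨f, hf, h3⟩ := (main ℤ ℕ Fin.valEmbedding).1 (by rw [Int.isUnit_iff]; omega)
    exact ⟨f, hf, h3⟩
  · intro h
    have h2 : Module.Flat ℤ (FreeAlt ℤ ℕ) := Module.Flat.of_free
    obtain ⟨b, hb⟩ := (main ℤ ℕ Fin.valEmbedding).2 h2
    omega

end Pool.Agent.N33.Tor.TorsionResult
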